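import Pool.Agent.helper78.LP.S

/-!
# MP_32ee78_lc, module S, second part: `sep_eight`, `sep_same_side`
-/

set_option autoImplicit false

namespace Pool.Agent.helper64.LP

namespace S

theorem inv_sub {i a b : ℝ} (ha : i ≠ a) (hb : i ≠ b) :
    1 / (i - a) - 1 / (i - b) = (a - b) / ((i - a) * (i - b)) := by
  have h1 := sub_ne_zero.mpr ha
  have h2 := sub_ne_zero.mpr hb
  field_simp
  ring

/-- sending `i` to infinity, `i` not among the four points -/
theorem sep_inv {i a b c d : ℝ} (ha : i ≠ a) (hb : i ≠ b) (hc : i ≠ c) (hd : i ≠ d) :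
    Sep (1 / (i - a)) (1 / (i - b)) (1 / (i - c)) (1 / (i - d)) ↔ Sep a b c d := by
  unfold Sep
  rw [inv_sub ha hb, inv_sub hb hc, inv_sub hc hd, inv_sub hd ha]
  have h1 := sub_ne_zero.mpr ha
  have h2 := sub_ne_zero.mpr hb
  have h3 := sub_ne_zero.mpr hc
  have h4 := sub_ne_zero.mpr hd
  have e : (a - b) / ((i - a) * (i - b)) * ((b - c) / ((i - b) * (i - c))) *
      ((c - d) / ((i - c) * (i - d))) * ((d - a) / ((i - d) * (i - a)))
      = (a - b) * (b - c) * (c - d) * (d - a) /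
        ((i - a) * (i - b) * (i - c) * (i - d)) ^ 2 := by
    field_simp
  have hpos : 0 < ((i - a) * (i - b) * (i - c) * (i - d)) ^ 2 := by positivity
  rw [e]
  constructor
  · intro h
    by_contra hcon
    exact absurd h (not_lt.mpr (div_nonneg (not_lt.mp hcon) hpos.le))
  · intro h
    exact div_neg_of_neg_of_pos h hpos

/-- sending `i` to infinity, `i` the first point -/
theorem sep_inf {i b c d : ℝ} (hb : i ≠ b) (hc : i ≠ c) (hd : i ≠ d) :
    Sep i b c d ↔ 0 < (1 / (i - b) - 1 / (i - c)) * (1 / (i - c) - 1 / (i - d)) := by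
  unfold Sep
  rw [inv_sub hb hc, inv_sub hc hd]
  have h2 := sub_ne_zero.mpr hb
  have h3 := sub_ne_zero.mpr hc
  have h4 := sub_ne_zero.mpr hd
  have e : (b - c) / ((i - b) * (i - c)) * ((c - d) / ((i - c) * (i - d)))
      = -((i - b) * (b - c) * (c - d) * (d - i)) / ((i - b) * (i - c) * (i - d)) ^ 2 := by
    field_simp
    ring
  have hpos : 0 < ((i - b) * (i - c) * (i - d)) ^ 2 := by positivity
  rw [e]
  constructor
  · intro h
    exact div_pos (neg_pos.mpr h) hpos
  · intro h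
    have := (div_pos_iff_of_pos_right hpos).mp h
    linarith

theorem between_pos {a b c : ℝ} (h : 0 < (a - b) * (b - c)) : (a < b ∧ b < c) ∨ (c < b ∧ b < a) := by
  rcases mul_pos_iff.mp h with ⟨h1, h2⟩ | ⟨h1, h2⟩
  · right
    exact ⟨by linarith, by linarith⟩
  · left
    exact ⟨by linarith, by linarith⟩

/-- the increasing case of `sep_eight` with `m 3` at infinity -/
theorem eight_aux {m0 m1 m2 x0 x1 x2 x3 : ℝ} (h01 : m0 < m1)
    (a1 : 0 < (x0 - m0) * (m0 - m1)) (a2 : 0 < (x0 - m0) * (m0 - m2))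
    (b1 : 0 < (m0 - x1) * (x1 - m1))
    (b2 : Sep m0 x1 m1 m2) (c1 : 0 < (m1 - x2) * (x2 - m2)) (d1 : 0 < (m0 - m2) * (m2 - x3)) :
    x0 < x1 ∧ x1 < x2 ∧ x2 < x3 := by
  have e1 : x0 < m0 := by
    rcases between_pos a1 with h | h
    · exact h.1
    · linarith [h.1]
  have e2 : m0 < x1 ∧ x1 < m1 := by
    rcases between_pos b1 with h | h
    · exact h
    · linarith [h.1, h.2]
  have e4 : m0 < m2 := by
    rcases between_pos a2 with h | h
    · exact h.2
    · linarith [h.1, h.2]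
  have e3 : m1 < m2 := by
    unfold Sep at b2
    by_contra hcon
    push Not at hcon
    have h3 : 0 ≤ (m1 - m2) * (m2 - m0) := mul_nonneg (by linarith) (by linarith)
    have : 0 ≤ (m0 - x1) * (x1 - m1) * ((m1 - m2) * (m2 - m0)) := mul_nonneg b1.le h3
    nlinarith
  have e5 : m1 < x2 ∧ x2 < m2 := by
    rcases between_pos c1 with h | h
    · exact h
    · linarith [h.1, h.2]
  have e6 : m2 < x3 := by
    rcases between_pos d1 with h | h
    · exact h.2
    · linarith [h.1, h.2]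
  exact ⟨by linarith [e2.1], by linarith [e2.2, e5.1], by linarith [e5.2]⟩

theorem sep_of_lt {a b c d : ℝ} (h1 : a < b) (h2 : b < c) (h3 : c < d) : Sep a b c d := by
  unfold Sep
  have e : (a - b) * (b - c) * (c - d) * (d - a) = -(((b - a) * (c - b)) * ((d - c) * (d - a))) := by
    ring
  rw [e]
  have : 0 < ((b - a) * (c - b)) * ((d - c) * (d - a)) :=
    mul_pos (mul_pos (by linarith) (by linarith)) (mul_pos (by linarith) (by linarith))
  linarith

theorem sep_neg {a b c d : ℝ} : Sep (-a) (-b) (-c) (-d) ↔ Sep a b c d := by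
  unfold Sep
  have e : (-a - -b) * (-b - -c) * (-c - -d) * (-d - -a)
      = (a - b) * (b - c) * (c - d) * (d - a) := by ring
  rw [e]

theorem eight_inf {m0 m1 m2 x0 x1 x2 x3 : ℝ}
    (a1 : 0 < (x0 - m0) * (m0 - m1)) (a2 : 0 < (x0 - m0) * (m0 - m2))
    (b1 : 0 < (m0 - x1) * (x1 - m1))
    (b2 : Sep m0 x1 m1 m2) (c1 : 0 < (m1 - x2) * (x2 - m2)) (d1 : 0 < (m0 - m2) * (m2 - x3)) :
    Sep x0 x1 x2 x3 := by
  rcases lt_trichotomy m0 m1 with h | h | h
  · obtain ⟨h1, h2, h3⟩ := eight_aux h a1 a2 b1 b2 c1 d1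
    exact sep_of_lt h1 h2 h3
  · rw [h] at a1
    simp at a1
  · have h' : -m0 < -m1 := by linarith
    obtain ⟨h1, h2, h3⟩ := eight_aux (m0 := -m0) (m1 := -m1) (m2 := -m2) (x0 := -x0) (x1 := -x1)
      (x2 := -x2) (x3 := -x3) h' (by nlinarith) (by nlinarith) (by nlinarith) (sep_neg.mpr b2)
      (by nlinarith) (by nlinarith)
    exact sep_neg.mp (sep_of_lt h1 h2 h3)

end S

open S in
/-- if `x i` is separated from the other `m j` by `m (i-1), m i`, then `x 0, …, x 3` are in
cyclic order -/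
theorem sep_eight (m x : Fin 4 → ℝ)
    (h : ∀ i j, j ≠ i → j ≠ i - 1 → Sep (m (i - 1)) (x i) (m i) (m j)) :
    Sep (x 0) (x 1) (x 2) (x 3) := by
  have h01 : Sep (m 3) (x 0) (m 0) (m 1) := h 0 1 (by decide) (by decide)
  have h02 : Sep (m 3) (x 0) (m 0) (m 2) := h 0 2 (by decide) (by decide)
  have h12 : Sep (m 0) (x 1) (m 1) (m 2) := h 1 2 (by decide) (by decide)
  have h13 : Sep (m 0) (x 1) (m 1) (m 3) := h 1 3 (by decide) (by decide)
  have h23 : Sep (m 1) (x 2) (m 2) (m 3) := h 2 3 (by decide) (by decide)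
  have h30 : Sep (m 2) (x 3) (m 3) (m 0) := h 3 0 (by decide) (by decide)
  have r13 : Sep (m 3) (m 0) (x 1) (m 1) := sep_rot (sep_rot (sep_rot h13))
  have r23 : Sep (m 3) (m 1) (x 2) (m 2) := sep_rot (sep_rot (sep_rot h23))
  have r30 : Sep (m 3) (m 0) (m 2) (x 3) := sep_rot (sep_rot h30)
  -- all points differ from `m 3`
  have n0 : m 3 ≠ x 0 := (sep_ne h01).1
  have n1 : m 3 ≠ m 0 := (sep_ne r13).1
  have n2 : m 3 ≠ m 1 := (sep_ne r23).1
  have n3 : m 3 ≠ m 2 := (sep_ne r30).2.2.2.2.1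
  have n4 : m 3 ≠ x 1 := (sep_ne r13).2.2.2.2.1
  have n5 : m 3 ≠ x 2 := (sep_ne r23).2.2.2.2.1
  have n6 : m 3 ≠ x 3 := Ne.symm (sep_ne r30).2.2.2.1
  rw [← sep_inv n0 n4 n5 n6]
  exact eight_inf ((sep_inf n0 n1 n2).mp h01) ((sep_inf n0 n1 n3).mp h02)
    ((sep_inf n1 n4 n2).mp r13) ((sep_inv n1 n4 n2 n3).mpr h12) ((sep_inf n2 n5 n3).mp r23)
    ((sep_inf n1 n3 n6).mp r30)

open S in
/-- used in module E: if `y` is between `a` and `b` and both are on the side of `f`, so is `y` -/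
theorem sep_same_side {i d f a b y : ℝ} (ha : ¬ Sep i a d f) (hb : ¬ Sep i b d f)
    (hay : Sep i a y b) (hf : f ≠ a) (hfb : f ≠ b) (hfy : f ≠ y) (hda : d ≠ a) (hdb : d ≠ b)
    (hdy : d ≠ y) (hid : i ≠ d) (hif : i ≠ f) (hdf : d ≠ f) : ¬ Sep i y d f := by
  obtain ⟨h1, h2, h3, h4, h5, h6⟩ := sep_ne hay
  have hia : i ≠ a := h1
  have hiy : i ≠ y := h5
  have hib : i ≠ b := Ne.symm h4
  rw [sep_inf hia hid hif] at ha
  rw [sep_inf hib hid hif] at hb
  rw [sep_inf hia hiy hib] at hay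
  rw [sep_inf hiy hid hif]
  set A := 1 / (i - a) with hA
  set B := 1 / (i - b) with hB
  set Y := 1 / (i - y) with hY
  set D := 1 / (i - d) with hD
  set F := 1 / (i - f) with hF
  have inj : ∀ {u v : ℝ}, i ≠ u → i ≠ v → u ≠ v → 1 / (i - u) ≠ 1 / (i - v) := by
    intro u v hu hv huv h
    have e := inv_sub hu hv
    rw [h, sub_self] at e
    have h7 : (u - v) / ((i - u) * (i - v)) ≠ 0 :=
      div_ne_zero (sub_ne_zero.mpr huv) (mul_ne_zero (sub_ne_zero.mpr hu) (sub_ne_zero.mpr hv))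
    exact h7 e.symm
  have nDF : D ≠ F := inj hid hif hdf
  have nDA : D ≠ A := inj hid hia hda
  have nDB : D ≠ B := inj hid hib hdb
  intro hcon
  -- `D < F` or `F < D`
  rcases lt_or_gt_of_ne nDF with h | h
  · -- `Y < D`, `A > D`, `B > D`
    have y1 : Y < D := by
      rcases between_pos hcon with h | h
      · exact h.1
      · linarith [h.1]
    have a1 : D < A := by
      by_contra h7
      have h8 : A < D := lt_of_le_of_ne (not_lt.mp h7) (Ne.symm nDA)
      exact ha (mul_pos_of_neg_of_neg (by linarith) (by linarith))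
    have b1 : D < B := by
      by_contra h7
      have h8 : B < D := lt_of_le_of_ne (not_lt.mp h7) (Ne.symm nDB)
      exact hb (mul_pos_of_neg_of_neg (by linarith) (by linarith))
    rcases between_pos hay with h7 | h7
    · linarith [h7.1]
    · linarith [h7.1, h7.2]
  · have y1 : D < Y := by
      rcases between_pos hcon with h | h
      · linarith [h.2]
      · exact h.2
    have a1 : A < D := by
      by_contra h7
      have h8 : D < A := lt_of_le_of_ne (not_lt.mp h7) nDA
      exact ha (mul_pos (by linarith) (by linarith))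
    have b1 : B < D := by
      by_contra h7
      have h8 : D < B := lt_of_le_of_ne (not_lt.mp h7) nDB
      exact hb (mul_pos (by linarith) (by linarith))
    rcases between_pos hay with h7 | h7
    · linarith [h7.1, h7.2]
    · linarith [h7.1, h7.2]

end Pool.Agent.helper64.LP
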