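import Pool.Agent.helper64.LP.Gk

/-!
# MP_32ee78_lc, module S: combinatorics of `Sep`
-/

set_option autoImplicit false

namespace Pool.Agent.helper64.LP

namespace S

theorem sep_ne {a b c d : ℝ} (h : Sep a b c d) :
    a ≠ b ∧ b ≠ c ∧ c ≠ d ∧ d ≠ a ∧ a ≠ c ∧ b ≠ d := by
  unfold Sep at h
  refine ⟨?_, ?_, ?_, ?_, ?_, ?_⟩
  · rintro rfl; simp at h
  · rintro rfl; simp at h
  · rintro rfl; simp at h
  · rintro rfl; simp at h
  · rintro rfl
    have : (a - b) * (b - a) * (a - d) * (d - a) = ((a - b) * (a - d)) ^ 2 := by ring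
    rw [this] at h
    exact absurd h (not_lt.mpr (sq_nonneg _))
  · rintro rfl
    have : (a - b) * (b - c) * (c - b) * (b - a) = ((a - b) * (b - c)) ^ 2 := by ring
    rw [this] at h
    exact absurd h (not_lt.mpr (sq_nonneg _))

theorem sep_rot {a b c d : ℝ} (h : Sep a b c d) : Sep b c d a := by
  unfold Sep at *
  have : (b - c) * (c - d) * (d - a) * (a - b) = (a - b) * (b - c) * (c - d) * (d - a) := by ring
  rwa [this]

/-- the orientations of all triples in cyclic order agree -/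
theorem orient {a b c d : ℝ} (h : Sep a b c d) :
    0 < ((a - b) * (b - c) * (c - a)) * ((a - b) * (b - c) * (c - a)) ∧
    0 < ((a - b) * (b - c) * (c - a)) * ((a - b) * (b - d) * (d - a)) ∧
    0 < ((a - b) * (b - c) * (c - a)) * ((b - c) * (c - d) * (d - b)) ∧
    0 < ((a - b) * (b - c) * (c - a)) * ((c - d) * (d - a) * (a - c)) := by
  obtain ⟨h1, h2, h3, h4, h5, h6⟩ := sep_ne h
  unfold Sep at h
  have n1 := sub_ne_zero.mpr h1
  have n2 := sub_ne_zero.mpr h2
  have n3 := sub_ne_zero.mpr h3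
  have n4 := sub_ne_zero.mpr h4
  have n5 := sub_ne_zero.mpr h5
  have n6 := sub_ne_zero.mpr h6
  have hPQ : 0 < ((a - b) * (c - d)) * ((b - c) * (a - d)) := by nlinarith
  have hR : (a - b) * (c - d) + (b - c) * (a - d) = (a - c) * (b - d) := by ring
  have hPR : 0 < ((a - b) * (c - d)) * ((a - c) * (b - d)) := by
    rw [← hR]
    have : 0 < ((a - b) * (c - d)) ^ 2 := by positivity
    nlinarith
  have hQR : 0 < ((b - c) * (a - d)) * ((a - c) * (b - d)) := by
    rw [← hR]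
    have n7 : a - d ≠ 0 := sub_ne_zero.mpr (Ne.symm h4)
    have : 0 < ((b - c) * (a - d)) ^ 2 := by positivity
    nlinarith
  have s1 : 0 < (a - b) ^ 2 := by positivity
  have s2 : 0 < (b - c) ^ 2 := by positivity
  have s5 : 0 < (a - c) ^ 2 := by positivity
  refine ⟨?_, ?_, ?_, ?_⟩
  · have n7 : c - a ≠ 0 := sub_ne_zero.mpr (Ne.symm h5)
    have : 0 < ((a - b) * (b - c) * (c - a)) ^ 2 := by positivity
    nlinarith
  · have e : ((a - b) * (b - c) * (c - a)) * ((a - b) * (b - d) * (d - a))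
        = (a - b) ^ 2 * (((b - c) * (a - d)) * ((a - c) * (b - d))) := by ring
    rw [e]
    exact mul_pos s1 hQR
  · have e : ((a - b) * (b - c) * (c - a)) * ((b - c) * (c - d) * (d - b))
        = (b - c) ^ 2 * (((a - b) * (c - d)) * ((a - c) * (b - d))) := by ring
    rw [e]
    exact mul_pos s2 hPR
  · have e : ((a - b) * (b - c) * (c - a)) * ((c - d) * (d - a) * (a - c))
        = (a - c) ^ 2 * (((a - b) * (c - d)) * ((b - c) * (a - d))) := by ring
    rw [e]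
    exact mul_pos s5 hPQ

/-- orientation of the triples `(i-1, i, j)` -/
theorem orient_fin (x : Fin 4 → ℝ) (h : Sep (x 0) (x 1) (x 2) (x 3)) :
    ∀ i j : Fin 4, j ≠ i → j ≠ i - 1 →
      0 < ((x 0 - x 1) * (x 1 - x 2) * (x 2 - x 0)) *
        ((x (i - 1) - x i) * (x i - x j) * (x j - x (i - 1))) := by
  obtain ⟨h1, h2, h3, h4⟩ := orient h
  have d0 : (0 : Fin 4) - 1 = 3 := rfl
  have d1 : (1 : Fin 4) - 1 = 0 := rfl
  have d2 : (2 : Fin 4) - 1 = 1 := rfl
  have d3 : (3 : Fin 4) - 1 = 2 := rfl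
  intro i j
  fin_cases i <;> fin_cases j <;> intro hji hji' <;>
    simp only [Fin.zero_eta, Fin.mk_one, Fin.reduceFinMk, d0, d1, d2, d3, ne_eq,
      not_true_eq_false] at hji hji' ⊢ <;> nlinarith

theorem exists_gap {E : Type} [Finite E] (φ : E → ℝ) (hφ : Function.Injective φ) :
    ∃ g : ℝ, 0 < g ∧ ∀ x y, x ≠ y → g ≤ |φ x - φ y| := by
  have h : ∀ p : E × E, ∀ᶠ g in nhdsWithin (0 : ℝ) (Set.Ioi 0), p.1 ≠ p.2 → g ≤ |φ p.1 - φ p.2| := by
    intro p
    by_cases hp : p.1 = p.2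
    · exact Filter.Eventually.of_forall fun g hg => absurd hp hg
    · have hpos : 0 < |φ p.1 - φ p.2| := abs_pos.mpr (sub_ne_zero.mpr fun h => hp (hφ h))
      filter_upwards [Ioo_mem_nhdsGT hpos] with g hg _ using hg.2.le
  have h2 := (Filter.eventually_all.mpr h).and self_mem_nhdsWithin
  obtain ⟨g, hg, hg0⟩ := h2.exists
  exact ⟨g, hg0, fun x y hxy => hg (x, y) hxy⟩

theorem neg_of_mul4 {f1 f2 f3 f4 b1 b2 b3 b4 : ℝ} (h1 : 0 < f1 * b1) (h2 : 0 < f2 * b2)
    (h3 : 0 < f3 * b3) (h4 : 0 < f4 * b4) (hb : b1 * b2 * b3 * b4 < 0) :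
    f1 * f2 * f3 * f4 < 0 := by
  have h : 0 < (f1 * f2 * f3 * f4) * (b1 * b2 * b3 * b4) := by
    have e : (f1 * f2 * f3 * f4) * (b1 * b2 * b3 * b4)
        = (f1 * b1) * (f2 * b2) * ((f3 * b3) * (f4 * b4)) := by ring
    rw [e]
    exact mul_pos (mul_pos h1 h2) (mul_pos h3 h4)
  exact neg_of_mul_pos_left h hb.le

theorem pert {D δ g : ℝ} (hD : g ≤ |D|) (hδ : |δ| < g) : 0 < (D + δ) * D := by
  rcases le_or_gt 0 D with h | h
  · rw [abs_of_nonneg h] at hD
    have := abs_lt.mp hδ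
    exact mul_pos (by linarith) (by linarith)
  · rw [abs_of_neg h] at hD
    have := abs_lt.mp hδ
    exact mul_pos_of_neg_of_neg (by linarith) h

end S

open S in
/-- used in module C2b -/
theorem exists_params {E T : Type} [Finite E] [Finite T] (q : T → Fin 4 → E)
    (hq : ∀ τ, Function.Injective (q τ)) (φ : E → ℝ) (hφ : Function.Injective φ)
    (hs : ∀ τ, Sep (φ (q τ 0)) (φ (q τ 1)) (φ (q τ 2)) (φ (q τ 3))) :
    ∃ μ : T → Fin 4 → ℝ, (∀ τ i x, μ τ i ≠ φ x) ∧
      (∀ τ i τ' i', μ τ i = μ τ' i' → τ = τ' ∧ i = i') ∧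
      (∀ τ i j, j ≠ i → j ≠ i - 1 → Sep (μ τ (i - 1)) (φ (q τ i)) (μ τ i) (μ τ j)) ∧
      (∀ τ i j, j ≠ i → Sep (μ τ (i - 1)) (φ (q τ i)) (μ τ i) (φ (q τ j))) := by
  classical
  obtain ⟨g, hg, hgap⟩ := exists_gap φ hφ
  obtain ⟨n, ⟨e⟩⟩ := Finite.exists_equiv_fin T
  set o : T → ℝ := fun τ => (φ (q τ 0) - φ (q τ 1)) * (φ (q τ 1) - φ (q τ 2)) *
    (φ (q τ 2) - φ (q τ 0)) with ho
  set ε : T → ℝ := fun τ => g / 2 / ((e τ : ℕ) + 2) with hε
  have hεpos : ∀ τ, 0 < ε τ := fun τ => by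
    simp only [hε]
    positivity
  have hεlt : ∀ τ, ε τ < g / 2 := fun τ => by
    simp only [hε]
    rw [div_lt_iff₀ (by positivity)]
    have : (0 : ℝ) ≤ (e τ : ℕ) := Nat.cast_nonneg _
    nlinarith
  have hεinj : ∀ τ τ', ε τ = ε τ' → τ = τ' := by
    intro τ τ' h
    simp only [hε] at h
    have h1 : ((e τ : ℕ) : ℝ) + 2 = (e τ' : ℕ) + 2 := by
      have p1 : (0 : ℝ) < (e τ : ℕ) + 2 := by positivity
      have p2 : (0 : ℝ) < (e τ' : ℕ) + 2 := by positivity
      rw [div_eq_div_iff p1.ne' p2.ne'] at h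
      have hg2 : g / 2 ≠ 0 := by positivity
      exact (mul_left_cancel₀ hg2 h).symm
    have h2 : ((e τ : ℕ) : ℝ) = (e τ' : ℕ) := by linarith
    have h3 : (e τ : ℕ) = (e τ' : ℕ) := by exact_mod_cast h2
    exact e.injective (Fin.ext h3)
  set η : T → ℝ := fun τ => if 0 < o τ then ε τ else -ε τ with hη
  have hoη : ∀ τ, 0 < η τ * o τ := by
    intro τ
    have hne : o τ ≠ 0 := by
      have := (orient (hs τ)).1
      intro h0
      simp only [ho] at h0
      rw [h0] at this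
      simp at this
    simp only [hη]
    split_ifs with h
    · exact mul_pos (hεpos τ) h
    · have : o τ < 0 := lt_of_le_of_ne (not_lt.mp h) hne
      exact mul_pos_of_neg_of_neg (neg_neg_of_pos (hεpos τ)) this
  have hηabs : ∀ τ, |η τ| = ε τ := by
    intro τ
    simp only [hη]
    split_ifs
    · exact abs_of_pos (hεpos τ)
    · rw [abs_neg]
      exact abs_of_pos (hεpos τ)
  have hηlt : ∀ τ, |η τ| < g / 2 := fun τ => by rw [hηabs]; exact hεlt τ
  have hηlt' : ∀ τ, |η τ| < g := fun τ => (hηlt τ).trans (by linarith)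
  have hηlt'' : ∀ τ, |-η τ| < g := fun τ => by rw [abs_neg]; exact hηlt' τ
  have hη0 : ∀ τ, η τ ≠ 0 := fun τ h => by
    have := hoη τ
    rw [h] at this
    simp at this
  have hgapq : ∀ τ (i j : Fin 4), i ≠ j → g ≤ |φ (q τ i) - φ (q τ j)| := fun τ i j hij =>
    hgap _ _ fun h => hij (hq τ h)
  have hne1 : ∀ i : Fin 4, i - 1 ≠ i := by decide
  -- the sign of the product
  have hbase : ∀ τ (i j : Fin 4), j ≠ i → j ≠ i - 1 →
      (φ (q τ (i - 1)) - φ (q τ i)) * (-o τ) * (φ (q τ i) - φ (q τ j)) *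
        (φ (q τ j) - φ (q τ (i - 1))) < 0 := by
    intro τ i j h1 h2
    have := orient_fin (fun i => φ (q τ i)) (hs τ) i j h1 h2
    simp only [ho]
    nlinarith
  have f2 : ∀ τ (i : Fin 4), 0 < (φ (q τ i) - (φ (q τ i) + η τ)) * (-o τ) := by
    intro τ i
    have := hoη τ
    have e1 : (φ (q τ i) - (φ (q τ i) + η τ)) * (-o τ) = η τ * o τ := by ring
    rwa [e1]
  have f1 : ∀ τ (i j : Fin 4), i ≠ j →
      0 < ((φ (q τ i) + η τ) - φ (q τ j)) * (φ (q τ i) - φ (q τ j)) := by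
    intro τ i j hij
    have := pert (hgapq τ i j hij) (hηlt' τ)
    have e1 : (φ (q τ i) + η τ) - φ (q τ j) = (φ (q τ i) - φ (q τ j)) + η τ := by ring
    rwa [e1]
  have f1' : ∀ τ (i j : Fin 4), i ≠ j →
      0 < (φ (q τ i) - (φ (q τ j) + η τ)) * (φ (q τ i) - φ (q τ j)) := by
    intro τ i j hij
    have := pert (hgapq τ i j hij) (hηlt'' τ)
    have e1 : φ (q τ i) - (φ (q τ j) + η τ) = (φ (q τ i) - φ (q τ j)) + -η τ := by ring
    rwa [e1]
  have f3 : ∀ τ (i j : Fin 4), i ≠ j →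
      0 < ((φ (q τ i) + η τ) - (φ (q τ j) + η τ)) * (φ (q τ i) - φ (q τ j)) := by
    intro τ i j hij
    have h1 := hgapq τ i j hij
    have h2 : φ (q τ i) - φ (q τ j) ≠ 0 := by
      intro h0
      rw [h0, abs_zero] at h1
      linarith
    have e1 : ((φ (q τ i) + η τ) - (φ (q τ j) + η τ)) * (φ (q τ i) - φ (q τ j))
        = (φ (q τ i) - φ (q τ j)) ^ 2 := by ring
    rw [e1]
    positivity
  refine ⟨fun τ i => φ (q τ i) + η τ, ?_, ?_, ?_, ?_⟩
  · intro τ i x h
    have h : φ (q τ i) + η τ = φ x := h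
    by_cases hx : q τ i = x
    · rw [hx] at h
      exact hη0 τ (by linarith)
    · have h1 := hgap _ _ hx
      have h2 : φ (q τ i) - φ x = -η τ := by linarith
      rw [h2] at h1
      exact absurd h1 (not_le.mpr (hηlt'' τ))
  · intro τ i τ' i' h
    have h : φ (q τ i) + η τ = φ (q τ' i') + η τ' := h
    by_cases hx : q τ i = q τ' i'
    · rw [hx] at h
      have h1 : η τ = η τ' := by linarith
      have h2 : ε τ = ε τ' := by rw [← hηabs, ← hηabs, h1]
      have h3 := hεinj _ _ h2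
      subst h3
      exact ⟨rfl, hq τ hx⟩
    · have h1 := hgap _ _ hx
      have h2 : φ (q τ i) - φ (q τ' i') = η τ' - η τ := by linarith
      rw [h2] at h1
      have h3 : |η τ' - η τ| ≤ |η τ'| + |η τ| := by
        have := abs_sub (η τ') (η τ)
        exact this
      linarith [hηlt τ, hηlt τ']
  · intro τ i j h1 h2
    exact neg_of_mul4 (f1 τ _ _ (hne1 i)) (f2 τ i) (f3 τ i j (Ne.symm h1)) (f3 τ j (i - 1) h2)
      (hbase τ i j h1 h2)
  · intro τ i j h1
    by_cases h2 : j = i - 1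
    · subst h2
      refine neg_of_mul4 (f1 τ _ _ (hne1 i)) (f2 τ i) (f1 τ i (i - 1) (Ne.symm (hne1 i)))
        (f2 τ (i - 1)) ?_
      have h3 : φ (q τ (i - 1)) - φ (q τ i) ≠ 0 := by
        intro h0
        have := hgapq τ _ _ (hne1 i)
        rw [h0, abs_zero] at this
        linarith
      have h4 : o τ ≠ 0 := fun h0 => by
        have := hoη τ
        rw [h0] at this
        simp at this
      have h5 : 0 < (o τ * (φ (q τ (i - 1)) - φ (q τ i))) ^ 2 := by positivity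
      nlinarith
    · exact neg_of_mul4 (f1 τ _ _ (hne1 i)) (f2 τ i) (f1 τ i j (Ne.symm h1))
        (f1' τ j (i - 1) h2) (hbase τ i j h1 h2)

theorem sep_cases {a b c d : ℝ} (hab : a ≠ b) (hac : a ≠ c) (had : a ≠ d) (hbc : b ≠ c)
    (hbd : b ≠ d) (hcd : c ≠ d) (h1 : ¬ Sep a c b d) (h2 : ¬ Sep a b d c) : Sep a b c d := by
  unfold Sep at *
  have n1 := sub_ne_zero.mpr hab
  have n2 := sub_ne_zero.mpr hac
  have n3 := sub_ne_zero.mpr had
  have n4 := sub_ne_zero.mpr hbc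
  have n5 := sub_ne_zero.mpr hbd
  have n6 := sub_ne_zero.mpr hcd
  have e1 : (a - c) * (c - b) * (b - d) * (d - a)
      = ((a - c) * (b - d)) * ((b - c) * (a - d)) := by ring
  have e2 : (a - b) * (b - d) * (d - c) * (c - a)
      = ((a - b) * (c - d)) * ((a - c) * (b - d)) := by ring
  rw [e1] at h1
  rw [e2] at h2
  have h1' : 0 < ((a - c) * (b - d)) * ((b - c) * (a - d)) :=
    lt_of_le_of_ne (not_lt.mp h1) (Ne.symm (by positivity))
  have h2' : 0 < ((a - b) * (c - d)) * ((a - c) * (b - d)) :=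
    lt_of_le_of_ne (not_lt.mp h2) (Ne.symm (by positivity))
  have h3 : 0 < (((a - b) * (c - d)) * ((b - c) * (a - d))) * ((a - c) * (b - d)) ^ 2 := by
    have := mul_pos h1' h2'
    nlinarith
  have h4 : 0 < ((a - b) * (c - d)) * ((b - c) * (a - d)) :=
    pos_of_mul_pos_left h3 (sq_nonneg _)
  nlinarith

end Pool.Agent.helper64.LP
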